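import Pool.Agent.Helper20_Cheeger.Lower2

set_option autoImplicit false

open MeasureTheory Set Filter Topology Metric
open scoped ENNReal Pointwise

namespace Pool.Agent.Helper20_Cheeger

variable {N : ℕ}

lemma polarNorm_le_of_subset {K₁ K₂ : Set (Sp N)} (h1 : IsAnisotropy K₁) (h2 : IsAnisotropy K₂)
    {c : ℝ} (hc : 0 < c) (h : K₁ ⊆ c • K₂) (x : Sp N) :
    polarNorm K₁ x ≤ c * polarNorm K₂ x := by
  apply csSup_le (h1.nonempty.image _)
  rintro _ ⟨y, hy, rfl⟩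
  obtain ⟨z, hz, rfl⟩ := h hy
  show inner ℝ x (c • z) ≤ _
  rw [inner_smul_right]
  exact mul_le_mul_of_nonneg_left (le_polarNorm h2 hz x) hc.le

lemma perimeter_le_of_subset {K₁ K₂ : Set (Sp N)} (h1 : IsAnisotropy K₁) (h2 : IsAnisotropy K₂)
    {c : ℝ} (hc : 0 < c) (h : K₁ ⊆ c • K₂) (E : Set (Sp N)) :
    perimeter K₁ E ≤ ENNReal.ofReal c * perimeter K₂ E := by
  have hc0 : ENNReal.ofReal c ≠ 0 := by simpa using hc
  have hct : ENNReal.ofReal c ≠ ∞ := ENNReal.ofReal_ne_top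
  unfold perimeter
  rw [ENNReal.mul_iInf_of_ne hc0 hct]
  refine iInf_mono fun μ => ?_
  rw [ENNReal.mul_iInf_of_ne hc0 hct]
  refine iInf_mono fun ν => ?_
  rw [ENNReal.mul_iInf_of_ne hc0 hct]
  refine iInf_mono fun hGG => ?_
  rw [← lintegral_const_mul' _ _ hct]
  apply lintegral_mono
  intro x
  show ENNReal.ofReal _ ≤ ENNReal.ofReal c * ENNReal.ofReal _
  rw [← ENNReal.ofReal_mul hc.le]
  exact ENNReal.ofReal_le_ofReal (polarNorm_le_of_subset h1 h2 hc h _)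

lemma cheeger_le_of_subset {K₁ K₂ : Set (Sp N)} (h1 : IsAnisotropy K₁) (h2 : IsAnisotropy K₂)
    {c : ℝ} (hc : 0 < c) (h : K₁ ⊆ c • K₂) (Ω : Set (Sp N)) :
    cheeger K₁ Ω ≤ ENNReal.ofReal c * cheeger K₂ Ω := by
  have hc0 : ENNReal.ofReal c ≠ 0 := by simpa using hc
  have hct : ENNReal.ofReal c ≠ ∞ := ENNReal.ofReal_ne_top
  unfold cheeger
  rw [ENNReal.mul_iInf_of_ne hc0 hct]
  refine iInf_mono fun E => ?_
  rw [ENNReal.mul_iInf_of_ne hc0 hct]
  refine iInf_mono fun hE => ?_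
  rw [ENNReal.mul_iInf_of_ne hc0 hct]
  refine iInf_mono fun hEΩ => ?_
  rw [ENNReal.mul_iInf_of_ne hc0 hct]
  refine iInf_mono fun hpos => ?_
  rw [← mul_div_assoc]
  exact ENNReal.div_le_div_right (perimeter_le_of_subset h1 h2 hc h E) _

lemma polarSet_subset {K₁ K₂ : Set (Sp N)} {d : ℝ} (hd : 0 < d) (h : K₂ ⊆ d • K₁) :
    polarSet K₁ ⊆ d • polarSet K₂ := by
  intro x hx
  rw [mem_smul_set_iff_inv_smul_mem₀ hd.ne']
  intro y hy
  obtain ⟨z, hz, rfl⟩ := h hy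
  show inner ℝ (d⁻¹ • x) (d • z) < 1
  rw [inner_smul_left, inner_smul_right]
  have := hx z hz
  simp only [map_inv₀, RCLike.conj_to_real]
  rw [← mul_assoc, inv_mul_cancel₀ hd.ne', one_mul]
  exact this

lemma volume_polarSet_le (hN : 1 ≤ N) {K₁ K₂ : Set (Sp N)} {d : ℝ} (hd : 0 < d)
    (h : K₂ ⊆ d • K₁) :
    volume (polarSet K₁) ^ (1 / (N : ℝ))
      ≤ ENNReal.ofReal d * volume (polarSet K₂) ^ (1 / (N : ℝ)) := by
  have hN' : (0 : ℝ) < N := by exact_mod_cast hN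
  have h1 : volume (polarSet K₁) ≤ ENNReal.ofReal d ^ N * volume (polarSet K₂) := by
    refine (measure_mono (polarSet_subset hd h)).trans (le_of_eq ?_)
    rw [Measure.addHaar_smul, finrank_euclideanSpace_fin, abs_of_pos (pow_pos hd N),
      ENNReal.ofReal_pow hd.le]
  calc volume (polarSet K₁) ^ (1 / (N : ℝ))
      ≤ (ENNReal.ofReal d ^ N * volume (polarSet K₂)) ^ (1 / (N : ℝ)) :=
        ENNReal.rpow_le_rpow h1 (by positivity)
    _ = ENNReal.ofReal d * volume (polarSet K₂) ^ (1 / (N : ℝ)) := by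
        rw [ENNReal.mul_rpow_of_nonneg _ _ (by positivity), ← ENNReal.rpow_natCast,
          ← ENNReal.rpow_mul, mul_one_div_cancel hN'.ne', ENNReal.rpow_one]

lemma functionalJ_le (hN : 1 ≤ N) {K₁ K₂ : Set (Sp N)} (h1 : IsAnisotropy K₁)
    (h2 : IsAnisotropy K₂) {c d : ℝ} (hc : 0 < c) (hd : 0 < d) (h : K₁ ⊆ c • K₂)
    (h' : K₂ ⊆ d • K₁) (Ω : Set (Sp N)) :
    functionalJ Ω K₁ ≤ ENNReal.ofReal (c * d) * functionalJ Ω K₂ := by
  unfold functionalJ
  calc cheeger K₁ Ω * volume (polarSet K₁) ^ (1 / (N : ℝ))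
      ≤ (ENNReal.ofReal c * cheeger K₂ Ω) *
        (ENNReal.ofReal d * volume (polarSet K₂) ^ (1 / (N : ℝ))) :=
        mul_le_mul' (cheeger_le_of_subset h1 h2 hc h Ω) (volume_polarSet_le hN hd h')
    _ = _ := by rw [ENNReal.ofReal_mul hc.le]; ring

lemma IsAnisotropy.smul {K : Set (Sp N)} (hK : IsAnisotropy K) {c : ℝ} (hc : 0 < c) :
    IsAnisotropy (c • K) where
  nonempty := hK.nonempty.smul_set
  isOpen := hK.isOpen.smul₀ hc.ne'
  isBounded := hK.isBounded.smul₀ c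
  convex := hK.convex.smul c
  neg_mem := by
    rintro _ ⟨y, hy, rfl⟩
    exact ⟨-y, hK.neg_mem y hy, by simp⟩

lemma IsAnisotropy.zero_mem {K : Set (Sp N)} (hK : IsAnisotropy K) : (0 : Sp N) ∈ K := by
  obtain ⟨x, hx⟩ := hK.nonempty
  have := hK.convex hx (hK.neg_mem x hx) (by norm_num : (0 : ℝ) ≤ 1 / 2)
    (by norm_num : (0 : ℝ) ≤ 1 / 2) (by norm_num)
  simpa using this

/-- `J` is scale invariant. -/
lemma functionalJ_smul_le (hN : 1 ≤ N) {K : Set (Sp N)} (hK : IsAnisotropy K) {c : ℝ}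
    (hc : 0 < c) (Ω : Set (Sp N)) : functionalJ Ω (c • K) ≤ functionalJ Ω K := by
  have h := functionalJ_le hN (hK.smul hc) hK hc (inv_pos.2 hc) (Subset.refl _)
    (by rw [smul_smul, inv_mul_cancel₀ hc.ne', one_smul]) Ω
  rwa [mul_inv_cancel₀ hc.ne', ENNReal.ofReal_one, one_mul] at h

lemma convex_polarSet (K : Set (Sp N)) : Convex ℝ (polarSet K) := by
  intro x hx y hy a b ha hb hab z hz
  rw [inner_add_left, inner_smul_left, inner_smul_left]
  simp only [RCLike.conj_to_real]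
  have h1 := hx z hz
  have h2 := hy z hz
  rcases ha.eq_or_lt with rfl | ha'
  · rw [zero_add] at hab
    subst hab
    linarith
  · have : a * inner ℝ x z < a * 1 := mul_lt_mul_of_pos_left h1 ha'
    have : b * inner ℝ y z ≤ b * 1 := mul_le_mul_of_nonneg_left h2.le hb
    linarith

/-- If the polar volume is bounded and `K` lies in the unit ball then `K` contains a fixed ball. -/
lemma inradius_bound (V : ℝ≥0∞) (hV : V ≠ ∞) : ∃ r > 0, ∀ K : Set (Sp N), IsAnisotropy K →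
    K ⊆ closedBall 0 1 → volume (polarSet K) ≤ V → ball (0 : Sp N) r ⊆ K := by
  set v : ℝ≥0∞ := volume (ball (0 : Sp N) (1 / 2)) with hv
  have hv0 : v ≠ 0 := (measure_ball_pos _ _ (by norm_num)).ne'
  have hvt : v ≠ ∞ := measure_ball_lt_top.ne
  obtain ⟨m, hm⟩ : ∃ m : ℕ, V / v < m := ENNReal.exists_nat_gt (ENNReal.div_ne_top hV hv0)
  refine ⟨1 / (2 * ((m : ℝ) + 1)), by positivity, ?_⟩
  intro K hK hK1 hKV z hz
  by_contra hzK
  obtain ⟨f, hf⟩ := geometric_hahn_banach_open_point hK.convex hK.isOpen hzK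
  have hfz : 0 < f z := by simpa using hf 0 hK.zero_mem
  obtain ⟨u, hu⟩ := (InnerProductSpace.toDual ℝ (Sp N)).surjective f
  have hfu : ∀ y, f y = inner ℝ u y := by
    intro y; rw [← hu]; simp
  set w : Sp N := (f z)⁻¹ • u with hw
  have hwK : w ∈ polarSet K := by
    intro y hy
    rw [hw, inner_smul_left]
    simp only [map_inv₀, RCLike.conj_to_real]
    rw [← hfu, ← div_eq_inv_mul, div_lt_one hfz]
    exact hf y hy
  have hwz : inner ℝ w z = 1 := by
    rw [hw, inner_smul_left]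
    simp only [map_inv₀, RCLike.conj_to_real]
    rw [← hfu, inv_mul_cancel₀ hfz.ne']
  have hz' : ‖z‖ < 1 / (2 * ((m : ℝ) + 1)) := by simpa using hz
  have hm1 : (0 : ℝ) < 2 * ((m : ℝ) + 1) := by positivity
  have hwn : 2 * ((m : ℝ) + 1) ≤ ‖w‖ := by
    have h1 : (1 : ℝ) ≤ ‖w‖ * ‖z‖ := by
      rw [← hwz]; exact real_inner_le_norm w z
    have h2 : ‖w‖ * ‖z‖ ≤ ‖w‖ * (1 / (2 * ((m : ℝ) + 1))) :=
      mul_le_mul_of_nonneg_left hz'.le (norm_nonneg _)
    have h3 : (1 : ℝ) ≤ ‖w‖ / (2 * ((m : ℝ) + 1)) := by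
      rw [div_eq_mul_one_div]; linarith
    rwa [le_div_iff₀ hm1, one_mul] at h3
  have hball : ball (0 : Sp N) 1 ⊆ polarSet K := by
    intro x hx y hy
    have hx' : ‖x‖ < 1 := by simpa using hx
    have hy' : ‖y‖ ≤ 1 := by simpa using hK1 hy
    calc inner ℝ x y ≤ ‖x‖ * ‖y‖ := real_inner_le_norm x y
      _ ≤ ‖x‖ * 1 := mul_le_mul_of_nonneg_left hy' (norm_nonneg _)
      _ < 1 := by linarith
  have h0 : (0 : Sp N) ∈ polarSet K := hball (by simp)
  set c : Fin (m + 1) → Sp N := fun j => ((j : ℝ) / (2 * ((m : ℝ) + 1))) • w with hc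
  have hsub : ∀ j, ball (c j) (1 / 2) ⊆ polarSet K := by
    intro j x hx
    set t : ℝ := (j : ℝ) / ((m : ℝ) + 1) with ht
    have ht0 : 0 ≤ t := by positivity
    have ht1 : t ≤ 1 := by
      rw [ht, div_le_one (by positivity)]
      have : ((j : ℕ) : ℝ) < (m : ℝ) + 1 := by exact_mod_cast j.isLt
      exact this.le
    have htw : t • w ∈ polarSet K := by
      have := (convex_polarSet K) hwK h0 ht0 (sub_nonneg.2 ht1) (by ring)
      simpa using this
    have hb : (2 : ℝ) • (x - c j) ∈ polarSet K := by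
      apply hball
      rw [mem_ball_zero_iff, norm_smul]
      rw [mem_ball, dist_eq_norm] at hx
      rw [Real.norm_of_nonneg (by norm_num : (0 : ℝ) ≤ 2)]
      linarith
    have hcomb := (convex_polarSet K) htw hb (by norm_num : (0 : ℝ) ≤ 1 / 2)
      (by norm_num : (0 : ℝ) ≤ 1 / 2) (by norm_num)
    have hx2 : (1 / 2 : ℝ) • (t • w) + (1 / 2 : ℝ) • ((2 : ℝ) • (x - c j)) = x := by
      have e1 : (1 / 2 : ℝ) * t = (j : ℝ) / (2 * ((m : ℝ) + 1)) := by
        rw [ht]; field_simp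
      have e2 : (1 / 2 : ℝ) * 2 = 1 := by norm_num
      rw [smul_smul (1 / 2 : ℝ) t w, e1, smul_smul (1 / 2 : ℝ) 2 (x - c j), e2, one_smul]
      show c j + (x - c j) = x
      abel
    rwa [hx2] at hcomb
  have hdisj : Pairwise (Function.onFun Disjoint fun j => ball (c j) (1 / 2)) := by
    intro i j hij
    apply ball_disjoint_ball
    rw [dist_eq_norm]
    show (1 : ℝ) / 2 + 1 / 2 ≤ ‖c i - c j‖
    have e1 : c i - c j = (((i : ℝ) - (j : ℝ)) / (2 * ((m : ℝ) + 1))) • w := by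
      rw [hc]; simp only; rw [← sub_smul, sub_div]
    rw [e1, norm_smul, norm_div, Real.norm_of_nonneg hm1.le]
    have e2 : (1 : ℝ) ≤ ‖((i : ℝ) - (j : ℝ))‖ := by
      have : ((i : ℕ) : ℤ) - ((j : ℕ) : ℤ) ≠ 0 := by
        intro hcon
        apply hij
        ext
        omega
      have h3 : (1 : ℤ) ≤ |((i : ℕ) : ℤ) - ((j : ℕ) : ℤ)| := Int.one_le_abs this
      rw [Real.norm_eq_abs]
      exact_mod_cast h3
    calc (1 : ℝ) / 2 + 1 / 2 = 1 / (2 * ((m : ℝ) + 1)) * (2 * ((m : ℝ) + 1)) := by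
          field_simp; norm_num
      _ ≤ ‖((i : ℝ) - (j : ℝ))‖ / (2 * ((m : ℝ) + 1)) * ‖w‖ := by
          gcongr
  have hvol : ((m : ℝ≥0∞) + 1) * v ≤ volume (polarSet K) := by
    calc ((m : ℝ≥0∞) + 1) * v = ∑ j : Fin (m + 1), volume (ball (c j) (1 / 2)) := by
          simp [Measure.addHaar_ball_center, hv]
      _ = volume (⋃ j : Fin (m + 1), ball (c j) (1 / 2)) := by
          rw [measure_iUnion hdisj (fun j => measurableSet_ball), tsum_fintype]
      _ ≤ volume (polarSet K) := measure_mono (iUnion_subset hsub)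
  have h5 : (m : ℝ≥0∞) + 1 ≤ V / v := by
    rw [ENNReal.le_div_iff_mul_le (Or.inl hv0) (Or.inl hvt)]
    exact hvol.trans hKV
  have h6 : (m : ℝ≥0∞) < m := lt_of_le_of_lt (le_trans le_self_add h5) hm
  exact lt_irrefl _ h6

end Pool.Agent.Helper20_Cheeger
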