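import Mathlib

/-!
# Definitions for the anisotropic Cheeger constant (problem MP_302605_an)

Everything follows the conventions of the problem file: centrally symmetric anisotropies,
polar sets, the polar norm, the anisotropic perimeter as an integral over the reduced boundary
(De Giorgi), the anisotropic Cheeger constant and the functional `J`.
-/

set_option autoImplicit false

open MeasureTheory Set Filter Topology Metric
open scoped ENNReal Pointwise

namespace Pool.Agent.Helper20_Cheeger

/-- The Euclidean space `ℝ^N`. -/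
abbrev Sp (N : ℕ) := EuclideanSpace ℝ (Fin N)

variable {N : ℕ}

/-- The class `𝒦_N`: non-empty, open, bounded, convex sets which are centrally symmetric with
respect to the origin. -/
structure IsAnisotropy (K : Set (Sp N)) : Prop where
  nonempty : K.Nonempty
  isOpen : IsOpen K
  isBounded : Bornology.IsBounded K
  convex : Convex ℝ K
  neg_mem : ∀ x ∈ K, -x ∈ K

/-- The polar set `K° = {x : x · y < 1 for all y ∈ K}`. -/
def polarSet (K : Set (Sp N)) : Set (Sp N) := {x | ∀ y ∈ K, inner ℝ x y < 1}

/-- The polar norm `Φ_K°(x) = sup {x · y : y ∈ K}`. -/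
noncomputable def polarNorm (K : Set (Sp N)) (x : Sp N) : ℝ :=
  sSup ((fun y : Sp N => inner ℝ x y) '' K)

/-- The divergence of a vector field `φ` at `x`: the trace of its differential. -/
noncomputable def divg (φ : Sp N → Sp N) (x : Sp N) : ℝ :=
  ∑ i : Fin N, (fderiv ℝ φ x (EuclideanSpace.single i 1)) i

/-- `(μ, ν)` is the polar decomposition of the distributional derivative of the indicator function
of `E` (with outward sign): `μ = |Dχ_E|` is a locally finite Borel measure, `ν` is a Borel field
with `|ν| = 1` `μ`-almost everywhere, and `∫_E div φ dx = ∫ φ · ν dμ` for every `C¹` vector field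
`φ` with compact support. Such a pair exists if and only if `E` has locally finite perimeter, and
then the vector measure `ν μ` is unique. -/
structure IsGaussGreen (E : Set (Sp N)) (μ : Measure (Sp N)) (ν : Sp N → Sp N) : Prop where
  locallyFinite : IsLocallyFiniteMeasure μ
  measurable : Measurable ν
  norm_eq_one : ∀ᵐ x ∂μ, ‖ν x‖ = 1
  gaussGreen : ∀ φ : Sp N → Sp N, ContDiff ℝ 1 φ → HasCompactSupport φ →
    ∫ x in E, divg φ x = ∫ x, inner ℝ (φ x) (ν x) ∂μ

/-- De Giorgi's condition: `x` lies in the support of `μ = |Dχ_E|` and the averages of `ν` over the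
balls centred at `x` converge to the unit vector `n`, the measure theoretic outer unit normal. -/
def IsNormalAt (μ : Measure (Sp N)) (ν : Sp N → Sp N) (x n : Sp N) : Prop :=
  (∀ r > 0, 0 < μ (closedBall x r)) ∧ ‖n‖ = 1 ∧
    Tendsto (fun r : ℝ => ⨍ y in closedBall x r, ν y ∂μ) (𝓝[>] 0) (𝓝 n)

/-- The reduced boundary `∂*E`. -/
def reducedBoundary (μ : Measure (Sp N)) (ν : Sp N → Sp N) : Set (Sp N) :=
  {x | ∃ n, IsNormalAt μ ν x n}

/-- The measure theoretic outer unit normal `ν_E(x)`, the limit of the averages of `ν`. -/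
noncomputable def outerNormal (μ : Measure (Sp N)) (ν : Sp N → Sp N) (x : Sp N) : Sp N :=
  limUnder (𝓝[>] (0 : ℝ)) (fun r : ℝ => ⨍ y in closedBall x r, ν y ∂μ)

/-- The `(N-1)`-dimensional Hausdorff measure on `ℝ^N` with its usual normalisation, i.e. the
Mathlib Hausdorff measure (for which a set of diameter `d` has size `d ^ (N-1)`) multiplied by the
volume of the ball of diameter one of `ℝ^(N-1)`. -/
noncomputable def surfaceMeasure (N : ℕ) : Measure (Sp N) :=
  volume (ball (0 : Sp (N - 1)) (1 / 2)) • Measure.hausdorffMeasure ((N - 1 : ℕ) : ℝ)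

/-- The anisotropic perimeter `P_K(E) = ∫_{∂*E} Φ_K°(ν_E) dH^{N-1}`. It is `+∞` if `E` does not have
locally finite perimeter (the infimum of the empty family); otherwise `∂*E` and `ν_E` do not
depend on the choice of `(μ, ν)`. -/
noncomputable def perimeter (K E : Set (Sp N)) : ℝ≥0∞ :=
  ⨅ (μ : Measure (Sp N)) (ν : Sp N → Sp N) (_ : IsGaussGreen E μ ν),
    ∫⁻ x in reducedBoundary μ ν, ENNReal.ofReal (polarNorm K (outerNormal μ ν x))
      ∂(surfaceMeasure N)

/-- The `K`-Cheeger constant `h_K(Ω) = inf {P_K(E) / |E| : E ⊆ Ω Borel, |E| > 0}`. -/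
noncomputable def cheeger (K Ω : Set (Sp N)) : ℝ≥0∞ :=
  ⨅ (E : Set (Sp N)) (_ : MeasurableSet E) (_ : E ⊆ Ω) (_ : 0 < volume E),
    perimeter K E / volume E

/-- The scale invariant functional `J_Ω[K] = h_K(Ω) |K°|^{1/N}`. -/
noncomputable def functionalJ (Ω K : Set (Sp N)) : ℝ≥0∞ :=
  cheeger K Ω * (volume (polarSet K)) ^ (1 / (N : ℝ))

end Pool.Agent.Helper20_Cheeger
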