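import Pool.Agent.Helper20_Cheeger.Defs

set_option autoImplicit false

open MeasureTheory Set Filter Topology Metric
open scoped ENNReal Pointwise

namespace Pool.Agent.Helper20_Cheeger

variable {N : ℕ}

lemma sum_single_coord (v : Sp N) :
    ∑ i : Fin N, v i • EuclideanSpace.single i (1 : ℝ) = v := by
  have := (EuclideanSpace.basisFun (Fin N) ℝ).sum_repr v
  simpa using this

lemma divg_smul_const {f : Sp N → ℝ} {x : Sp N} (hf : DifferentiableAt ℝ f x) (v : Sp N) :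
    divg (fun y => f y • v) x = fderiv ℝ f x v := by
  unfold divg
  rw [fderiv_smul_const hf]
  have h1 : ∀ i : Fin N, (((fderiv ℝ f x).smulRight v) (EuclideanSpace.single i (1 : ℝ))) i
      = v i • fderiv ℝ f x (EuclideanSpace.single i (1 : ℝ)) := by
    intro i
    simp [mul_comm]
  rw [Finset.sum_congr rfl (fun i _ => h1 i)]
  conv_rhs => rw [← sum_single_coord v, map_sum]
  simp

/-- Gauss-Green for fields of the form `f v`. -/
lemma IsGaussGreen.scalar {E : Set (Sp N)} {μ : Measure (Sp N)} {ν : Sp N → Sp N}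
    (h : IsGaussGreen E μ ν) {f : Sp N → ℝ} (hf : ContDiff ℝ 1 f) (hc : HasCompactSupport f)
    (v : Sp N) :
    ∫ x in E, fderiv ℝ f x v = ∫ x, f x * inner ℝ v (ν x) ∂μ := by
  have h1 := h.gaussGreen (fun y => f y • v) (hf.smul contDiff_const) hc.smul_right
  have h2 : (fun x => divg (fun y => f y • v) x) = fun x => fderiv ℝ f x v := by
    funext x
    exact divg_smul_const (hf.differentiable (by norm_num) x) v
  simp only [h2] at h1
  rw [h1]
  congr 1
  funext x
  rw [real_inner_smul_left]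

/-- the reference bump function. -/
noncomputable def refBump (N : ℕ) : ContDiffBump (0 : Sp N) where
  rIn := 1 / 2
  rOut := 1
  rIn_pos := by norm_num
  rIn_lt_rOut := by norm_num

lemma refBump_fderiv_bound (N : ℕ) : ∃ C : ℝ, 0 ≤ C ∧ ∀ z, ‖fderiv ℝ (refBump N) z‖ ≤ C := by
  have hc : Continuous (fderiv ℝ (refBump N)) :=
    ((refBump N).contDiff (n := 1)).continuous_fderiv (by norm_num)
  have hs : HasCompactSupport (fderiv ℝ (refBump N)) := (refBump N).hasCompactSupport.fderiv ℝ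
  obtain ⟨C, hC⟩ := hc.bounded_above_of_compact_support hs
  exact ⟨C, le_trans (norm_nonneg _) (hC 0), hC⟩

/-- the rescaled bump. -/
noncomputable def bumpAt (x : Sp N) (r : ℝ) (y : Sp N) : ℝ := refBump N (r⁻¹ • (y - x))

lemma bumpAt_contDiff (x : Sp N) (r : ℝ) : ContDiff ℝ 1 (bumpAt x r) := by
  have h : ContDiff ℝ 1 (fun y : Sp N => r⁻¹ • (y - x)) := by fun_prop
  exact (refBump N).contDiff.comp h

lemma bumpAt_nonneg (x : Sp N) (r : ℝ) (y : Sp N) : 0 ≤ bumpAt x r y := (refBump N).nonneg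

lemma bumpAt_le_one (x : Sp N) (r : ℝ) (y : Sp N) : bumpAt x r y ≤ 1 := (refBump N).le_one

lemma bumpAt_eq_zero {x : Sp N} {r : ℝ} (hr : 0 < r) {y : Sp N} (hy : y ∉ closedBall x r) :
    bumpAt x r y = 0 := by
  unfold bumpAt
  apply (refBump N).zero_of_le_dist
  rw [mem_closedBall, not_le, dist_eq_norm] at hy
  rw [dist_zero_right, norm_smul, norm_inv, Real.norm_of_nonneg hr.le]
  show (1 : ℝ) ≤ _
  rw [← div_eq_inv_mul, le_div_iff₀ hr]
  linarith

lemma bumpAt_eq_one {x : Sp N} {r : ℝ} (hr : 0 < r) {y : Sp N} (hy : y ∈ closedBall x (r / 2)) :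
    bumpAt x r y = 1 := by
  unfold bumpAt
  apply (refBump N).one_of_mem_closedBall
  rw [mem_closedBall, dist_eq_norm] at hy
  rw [mem_closedBall, dist_zero_right, norm_smul, norm_inv, Real.norm_of_nonneg hr.le]
  show _ ≤ (1 / 2 : ℝ)
  rw [← div_eq_inv_mul, div_le_iff₀ hr]
  linarith

lemma bumpAt_hasCompactSupport {x : Sp N} {r : ℝ} (hr : 0 < r) :
    HasCompactSupport (bumpAt x r) :=
  HasCompactSupport.intro (isCompact_closedBall x r) (fun _ hy => bumpAt_eq_zero hr hy)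

lemma bumpAt_fderiv_bound {C : ℝ} (hC : ∀ z, ‖fderiv ℝ (refBump N) z‖ ≤ C)
    {x : Sp N} {r : ℝ} (hr : 0 < r) (y v : Sp N) :
    |fderiv ℝ (bumpAt x r) y v| ≤ C / r * ‖v‖ := by
  have h1 : HasFDerivAt (fun y : Sp N => r⁻¹ • (y - x)) (r⁻¹ • ContinuousLinearMap.id ℝ (Sp N)) y :=
    ((hasFDerivAt_id y).sub_const x).const_smul r⁻¹
  have h2 : HasFDerivAt (refBump N) (fderiv ℝ (refBump N) (r⁻¹ • (y - x))) (r⁻¹ • (y - x)) :=
    (((refBump N).contDiff (n := 1)).differentiable (by norm_num) _).hasFDerivAt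
  have h3 := (h2.comp y h1).fderiv
  have h4 : fderiv ℝ (bumpAt x r) y = (fderiv ℝ (refBump N) (r⁻¹ • (y - x))).comp
      (r⁻¹ • ContinuousLinearMap.id ℝ (Sp N)) := h3
  have h6 : fderiv ℝ (bumpAt x r) y v = r⁻¹ * fderiv ℝ (refBump N) (r⁻¹ • (y - x)) v := by
    rw [h4]
    show fderiv ℝ (refBump N) (r⁻¹ • (y - x)) (r⁻¹ • v) = _
    rw [map_smul, smul_eq_mul]
  rw [h6, abs_mul, abs_inv, abs_of_pos hr]
  have h5 : |fderiv ℝ (refBump N) (r⁻¹ • (y - x)) v| ≤ C * ‖v‖ := by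
    have := (fderiv ℝ (refBump N) (r⁻¹ • (y - x))).le_opNorm v
    rw [Real.norm_eq_abs] at this
    exact this.trans (mul_le_mul_of_nonneg_right (hC _) (norm_nonneg _))
  calc r⁻¹ * |fderiv ℝ (refBump N) (r⁻¹ • (y - x)) v| ≤ r⁻¹ * (C * ‖v‖) := by
        apply mul_le_mul_of_nonneg_left h5 (by positivity)
    _ = C / r * ‖v‖ := by ring

/-- Dyadic iteration: a decay estimate. -/
lemma dyadic_iteration (m : ℝ → ℝ) (k : ℕ) (A r0 : ℝ) (hr0 : 0 < r0) (hA : 0 ≤ A)
    (hm0 : ∀ r, 0 ≤ m r) (hmono : Monotone m)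
    (hstep : ∀ r, 0 < r → r ≤ r0 → m (r / 2) ≤ A * r ^ k + m r / (2 * 2 ^ k)) :
    ∃ r1 > 0, ∀ r, 0 < r → r < r1 → m r ≤ (2 * 2 ^ k * A + 1) * r ^ k := by
  set M : ℝ := m r0 * 2 ^ k / r0 ^ k with hM
  have hM0 : 0 ≤ M := by
    rw [hM]; have := hm0 r0; positivity
  have key : ∀ j : ℕ, ∀ r, r0 / 2 ^ (j + 1) < r → r ≤ r0 / 2 ^ j →
      m r ≤ (2 * 2 ^ k * A + M / 2 ^ j) * r ^ k := by
    intro j
    induction j with
    | zero =>
      intro r h1 h2
      simp only [zero_add, pow_one, pow_zero, div_one] at h1 h2 ⊢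
      have h3 : m r ≤ m r0 := hmono h2
      have h4 : (r0 / 2) ^ k ≤ r ^ k := pow_le_pow_left₀ (by positivity) h1.le k
      have h5 : m r0 = M * (r0 / 2) ^ k := by
        rw [hM, div_pow]; field_simp
      calc m r ≤ m r0 := h3
        _ = M * (r0 / 2) ^ k := h5
        _ ≤ M * r ^ k := mul_le_mul_of_nonneg_left h4 hM0
        _ ≤ (2 * 2 ^ k * A + M) * r ^ k := by
            apply mul_le_mul_of_nonneg_right _ (pow_nonneg (le_trans (by positivity) h1.le) k)
            have : 0 ≤ 2 * 2 ^ k * A := by positivity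
            linarith
    | succ j ih =>
      intro r h1 h2
      have hr : 0 < r := lt_trans (by positivity) h1
      have h3 : r0 / 2 ^ (j + 1) < 2 * r := by
        have : r0 / 2 ^ (j + 1) = 2 * (r0 / 2 ^ (j + 1 + 1)) := by
          rw [pow_succ (2 : ℝ) (j + 1)]; field_simp
        rw [this]; linarith
      have h4 : 2 * r ≤ r0 / 2 ^ j := by
        have : r0 / 2 ^ j = 2 * (r0 / 2 ^ (j + 1)) := by
          rw [pow_succ (2 : ℝ) j]; field_simp
        rw [this]; linarith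
      have h5 : 2 * r ≤ r0 := h4.trans (div_le_self hr0.le (one_le_pow₀ (by norm_num)))
      have h6 := hstep (2 * r) (by positivity) h5
      have h7 := ih (2 * r) h3 h4
      have h8 : 2 * r / 2 = r := by ring
      rw [h8] at h6
      have h9 : (0 : ℝ) < 2 * 2 ^ k := by positivity
      calc m r ≤ A * (2 * r) ^ k + m (2 * r) / (2 * 2 ^ k) := h6
        _ ≤ A * (2 * r) ^ k + ((2 * 2 ^ k * A + M / 2 ^ j) * (2 * r) ^ k) / (2 * 2 ^ k) := by
            gcongr
        _ = (2 * 2 ^ k * A + M / 2 ^ (j + 1)) * r ^ k := by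
            rw [mul_pow, pow_succ (2 : ℝ) j]; field_simp; ring
  obtain ⟨J, hJ⟩ : ∃ J : ℕ, M < 2 ^ J := pow_unbounded_of_one_lt M (by norm_num)
  refine ⟨r0 / 2 ^ J, by positivity, ?_⟩
  intro r hr hr1
  have hrr0 : r / r0 ≤ 1 := by
    rw [div_le_one hr0]
    exact hr1.le.trans (div_le_self hr0.le (one_le_pow₀ (by norm_num)))
  obtain ⟨j, hj1, hj2⟩ := exists_nat_pow_near_of_lt_one (x := r / r0) (y := (1 / 2 : ℝ))
    (by positivity) hrr0 (by norm_num) (by norm_num)
  have e1 : r0 / 2 ^ (j + 1) < r := by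
    rw [lt_div_iff₀ hr0] at hj1
    have : (1 / 2 : ℝ) ^ (j + 1) * r0 = r0 / 2 ^ (j + 1) := by
      rw [div_pow, one_pow]; ring
    linarith
  have e2 : r ≤ r0 / 2 ^ j := by
    rw [div_le_iff₀ hr0] at hj2
    have : (1 / 2 : ℝ) ^ j * r0 = r0 / 2 ^ j := by
      rw [div_pow, one_pow]; ring
    linarith
  have hjJ : J ≤ j := by
    by_contra hcon
    push Not at hcon
    have h1 : r0 / 2 ^ J ≤ r0 / 2 ^ (j + 1) := by
      apply div_le_div_of_nonneg_left hr0.le (by positivity)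
      exact pow_le_pow_right₀ (by norm_num) hcon
    linarith
  have h2 : M / 2 ^ j ≤ 1 := by
    rw [div_le_one (by positivity)]
    exact hJ.le.trans (pow_le_pow_right₀ (by norm_num) hjJ)
  refine (key j r e1 e2).trans ?_
  apply mul_le_mul_of_nonneg_right _ (by positivity)
  linarith

end Pool.Agent.Helper20_Cheeger
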