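import Pool.Agent.Helper20_Cheeger.Density

set_option autoImplicit false

open MeasureTheory Set Filter Topology Metric
open scoped ENNReal Pointwise

namespace Pool.Agent.Helper20_Cheeger

variable {N : ℕ}

lemma inner_le_one_of_unit {a b : Sp N} (ha : ‖a‖ = 1) (hb : ‖b‖ = 1) :
    inner ℝ a b ≤ 1 := by
  have := real_inner_le_norm a b
  rwa [ha, hb, one_mul] at this

/-- left-hand side of Gauss-Green for a rescaled bump. -/
lemma lhs_bound {C : ℝ} (hC0 : 0 ≤ C) (hC : ∀ z, ‖fderiv ℝ (refBump N) z‖ ≤ C) (hN : 1 ≤ N)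
    {E : Set (Sp N)} (hE : MeasurableSet E) {x n : Sp N} (hn : ‖n‖ = 1) {r : ℝ} (hr : 0 < r) :
    |∫ y in E, fderiv ℝ (bumpAt x r) y n|
      ≤ C * (volume (ball (0 : Sp N) 1)).toReal * r ^ (N - 1) := by
  have h0 : ∀ y ∈ E \ closedBall x r, fderiv ℝ (bumpAt x r) y n = 0 := by
    intro y hy
    have h1 : bumpAt x r =ᶠ[𝓝 y] fun _ => (0 : ℝ) := by
      filter_upwards [(isClosed_closedBall.isOpen_compl).mem_nhds hy.2] with z hz
      exact bumpAt_eq_zero hr hz
    rw [h1.fderiv_eq]
    simp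
  have h1 : ∫ y in E, fderiv ℝ (bumpAt x r) y n
      = ∫ y in E ∩ closedBall x r, fderiv ℝ (bumpAt x r) y n := by
    apply setIntegral_eq_of_subset_of_forall_sdiff_eq_zero hE inter_subset_left
    intro y hy
    apply h0
    refine ⟨hy.1, fun hcon => hy.2 ⟨hy.1, hcon⟩⟩
  rw [h1, ← Real.norm_eq_abs]
  have hfin : volume (E ∩ closedBall x r) < ∞ :=
    lt_of_le_of_lt (measure_mono inter_subset_right) measure_closedBall_lt_top
  have h2 : ‖∫ y in E ∩ closedBall x r, fderiv ℝ (bumpAt x r) y n‖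
      ≤ C / r * volume.real (E ∩ closedBall x r) := by
    apply norm_setIntegral_le_of_norm_le_const hfin
    intro y _
    have := bumpAt_fderiv_bound hC (x := x) hr y n
    rwa [hn, mul_one] at this
  refine h2.trans ?_
  have h3 : volume.real (E ∩ closedBall x r) ≤ r ^ N * (volume (ball (0 : Sp N) 1)).toReal := by
    have h4 : volume.real (E ∩ closedBall x r) ≤ volume.real (closedBall x r) :=
      measureReal_mono inter_subset_right measure_closedBall_lt_top.ne
    refine h4.trans (le_of_eq ?_)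
    unfold Measure.real
    rw [Measure.addHaar_closedBall _ _ hr.le]
    simp [ENNReal.toReal_mul, ENNReal.toReal_ofReal (pow_nonneg hr.le N)]
  calc C / r * volume.real (E ∩ closedBall x r)
      ≤ C / r * (r ^ N * (volume (ball (0 : Sp N) 1)).toReal) := by
        apply mul_le_mul_of_nonneg_left h3 (by positivity)
    _ = C * (volume (ball (0 : Sp N) 1)).toReal * r ^ (N - 1) := by
        obtain ⟨M, rfl⟩ : ∃ M, N = M + 1 := ⟨N - 1, by omega⟩
        simp only [Nat.add_sub_cancel]
        rw [pow_succ]; field_simp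

/-- right-hand side of Gauss-Green for a rescaled bump. -/
lemma rhs_bound {E : Set (Sp N)} {μ : Measure (Sp N)} {ν : Sp N → Sp N}
    (h : IsGaussGreen E μ ν) {x n : Sp N} (hn : ‖n‖ = 1) {r : ℝ} (hr : 0 < r) :
    μ.real (closedBall x (r / 2)) - μ.real (closedBall x r) *
      (1 - inner ℝ n (⨍ y in closedBall x r, ν y ∂μ)) ≤
      ∫ y, bumpAt x r y * inner ℝ n (ν y) ∂μ := by
  have := h.locallyFinite
  set A := closedBall x r with hA
  have hAfin : μ A < ∞ := measure_closedBall_lt_top
  have : IsFiniteMeasure (μ.restrict A) := ⟨by rwa [Measure.restrict_apply_univ]⟩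
  have hb_cont : Continuous (bumpAt x r) := (bumpAt_contDiff x r).continuous
  have hνi : Integrable ν (μ.restrict A) := by
    refine Integrable.of_bound (C := 1) h.measurable.aestronglyMeasurable ?_
    exact ae_restrict_of_ae (h.norm_eq_one.mono fun y hy => hy.le)
  have hbi : Integrable (bumpAt x r) (μ.restrict A) := by
    refine Integrable.of_bound (C := 1) hb_cont.aestronglyMeasurable ?_
    refine Eventually.of_forall fun y => ?_
    rw [Real.norm_of_nonneg (bumpAt_nonneg x r y)]
    exact bumpAt_le_one x r y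
  have hni : Integrable (fun y => (inner ℝ n (ν y) : ℝ)) (μ.restrict A) :=
    hνi.const_inner n
  have hbni : Integrable (fun y => bumpAt x r y * inner ℝ n (ν y)) (μ.restrict A) := by
    apply hni.bdd_mul (c := 1) hb_cont.aestronglyMeasurable
    refine Eventually.of_forall fun y => ?_
    rw [Real.norm_of_nonneg (bumpAt_nonneg x r y)]
    exact bumpAt_le_one x r y
  have h1 : ∫ y, bumpAt x r y * inner ℝ n (ν y) ∂μ
      = ∫ y in A, bumpAt x r y * inner ℝ n (ν y) ∂μ := by
    symm
    apply setIntegral_eq_integral_of_forall_compl_eq_zero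
    intro y hy
    rw [bumpAt_eq_zero hr hy, zero_mul]
  rw [h1]
  have h2 : ∫ y in A, (inner ℝ n (ν y) - 1 + bumpAt x r y) ∂μ
      ≤ ∫ y in A, bumpAt x r y * inner ℝ n (ν y) ∂μ := by
    apply integral_mono_ae ((hni.sub (integrable_const 1)).add hbi) hbni
    apply ae_restrict_of_ae
    filter_upwards [h.norm_eq_one] with y hy
    have e1 := inner_le_one_of_unit hn hy
    have e2 := bumpAt_le_one x r y
    show inner ℝ n (ν y) - 1 + bumpAt x r y ≤ bumpAt x r y * inner ℝ n (ν y)
    nlinarith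
  refine le_trans ?_ h2
  have h6 : ∫ y in A, (inner ℝ n (ν y) - 1 + bumpAt x r y) ∂μ
      = ∫ y in A, inner ℝ n (ν y) ∂μ - ∫ y in A, (1 : ℝ) ∂μ + ∫ y in A, bumpAt x r y ∂μ := by
    rw [← integral_sub hni (integrable_const 1)]
    exact integral_add (hni.sub (integrable_const 1)) hbi
  rw [h6]
  have h3 : ∫ y in A, (inner ℝ n (ν y) : ℝ) ∂μ
      = μ.real A * inner ℝ n (⨍ y in A, ν y ∂μ) := by
    rw [integral_inner hνi n, ← measure_smul_setAverage ν hAfin.ne, inner_smul_right]
  have h4 : ∫ y in A, (1 : ℝ) ∂μ = μ.real A := by simp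
  have h5 : μ.real (closedBall x (r / 2)) ≤ ∫ y in A, bumpAt x r y ∂μ := by
    have hsub : closedBall x (r / 2) ⊆ A := closedBall_subset_closedBall (by linarith)
    have e1 : μ.real (closedBall x (r / 2)) = ∫ y in closedBall x (r / 2), bumpAt x r y ∂μ := by
      rw [setIntegral_congr_fun measurableSet_closedBall (g := fun _ => (1 : ℝ))
        (fun y hy => bumpAt_eq_one hr hy)]
      simp
    rw [e1]
    apply setIntegral_mono_set hbi
    · exact Eventually.of_forall fun y => bumpAt_nonneg x r y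
    · exact hsub.eventuallyLE
  rw [h3, h4]
  nlinarith

/-- Upper density bound at points of the reduced boundary. -/
lemma density_bound (hN : 1 ≤ N) : ∃ D : ℝ, 0 < D ∧ ∀ {E : Set (Sp N)}, MeasurableSet E →
    ∀ {μ : Measure (Sp N)} {ν : Sp N → Sp N}, IsGaussGreen E μ ν → ∀ x ∈ reducedBoundary μ ν,
      ∃ r1 > 0, ∀ r, 0 < r → r < r1 → μ (closedBall x r) ≤ ENNReal.ofReal (D * r ^ (N - 1)) := by
  obtain ⟨C, hC0, hC⟩ := refBump_fderiv_bound N
  set A : ℝ := C * (volume (ball (0 : Sp N) 1)).toReal with hAdef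
  have hA0 : 0 ≤ A := by positivity
  refine ⟨2 * 2 ^ (N - 1) * A + 1, by positivity, ?_⟩
  intro E hE μ ν h x hx
  have := h.locallyFinite
  obtain ⟨n, _, hn, hlim⟩ := hx
  have hlim2 : Tendsto (fun r : ℝ => 1 - inner ℝ n (⨍ y in closedBall x r, ν y ∂μ)) (𝓝[>] 0)
      (𝓝 (1 - inner ℝ n n)) :=
    tendsto_const_nhds.sub (tendsto_const_nhds.inner hlim)
  have hnn : (1 : ℝ) - inner ℝ n n = 0 := by
    rw [real_inner_self_eq_norm_sq, hn]; norm_num
  rw [hnn] at hlim2
  have hpos : (0 : ℝ) < 1 / (2 * 2 ^ (N - 1)) := by positivity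
  have hev := hlim2.eventually (gt_mem_nhds hpos)
  rw [eventually_nhdsWithin_iff, Metric.eventually_nhds_iff] at hev
  obtain ⟨ε, hε, hball⟩ := hev
  have hstep : ∀ r, 0 < r → r ≤ ε / 2 →
      μ.real (closedBall x (r / 2)) ≤ A * r ^ (N - 1) +
        μ.real (closedBall x r) / (2 * 2 ^ (N - 1)) := by
    intro r hr hr2
    have e1 := lhs_bound hC0 hC hN hE (x := x) hn hr
    have e2 := rhs_bound h (x := x) hn hr
    rw [← h.scalar (bumpAt_contDiff x r) (bumpAt_hasCompactSupport hr) n] at e2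
    have e3 : 1 - inner ℝ n (⨍ y in closedBall x r, ν y ∂μ) < 1 / (2 * 2 ^ (N - 1)) := by
      apply hball _ (show r ∈ Ioi (0 : ℝ) from hr)
      rw [Real.dist_eq, sub_zero, abs_of_pos hr]; linarith
    have e4 : (0 : ℝ) ≤ μ.real (closedBall x r) := measureReal_nonneg
    have e5 : μ.real (closedBall x r) * (1 - inner ℝ n (⨍ y in closedBall x r, ν y ∂μ))
        ≤ μ.real (closedBall x r) / (2 * 2 ^ (N - 1)) := by
      rw [div_eq_mul_one_div]
      exact mul_le_mul_of_nonneg_left e3.le e4
    have e6 := le_abs_self (∫ y in E, fderiv ℝ (bumpAt x r) y n)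
    linarith
  have hmono : Monotone fun r : ℝ => μ.real (closedBall x r) := by
    intro a b hab
    exact measureReal_mono (closedBall_subset_closedBall hab) measure_closedBall_lt_top.ne
  obtain ⟨r1, hr1, hfin⟩ := dyadic_iteration (fun r => μ.real (closedBall x r)) (N - 1) A (ε / 2)
    (by positivity) hA0 (fun r => measureReal_nonneg) hmono hstep
  refine ⟨r1, hr1, fun r hr hrr => ?_⟩
  have := hfin r hr hrr
  have h9 : μ (closedBall x r) = ENNReal.ofReal (μ.real (closedBall x r)) := by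
    rw [ofReal_measureReal measure_closedBall_lt_top.ne]
  rw [h9]
  exact ENNReal.ofReal_le_ofReal this

end Pool.Agent.Helper20_Cheeger
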