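import Pool.Agent.Helper20_Cheeger.Density2

set_option autoImplicit false

open MeasureTheory Set Filter Topology Metric
open scoped ENNReal Pointwise

namespace Pool.Agent.Helper20_Cheeger

variable {N : ℕ}

/-- On the reduced boundary, `|Dχ_E|` is controlled by the Hausdorff measure. -/
lemma measure_le_hausdorff {D : ℝ} (hD : 0 < D) {μ : Measure (Sp N)} {S : Set (Sp N)}
    (hS : ∀ x ∈ S, ∃ r1 > 0, ∀ r, 0 < r → r < r1 →
      μ (closedBall x r) ≤ ENNReal.ofReal (D * r ^ (N - 1)))
    {B : Set (Sp N)} (hBS : B ⊆ S) :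
    μ B ≤ ENNReal.ofReal D * Measure.hausdorffMeasure ((N - 1 : ℕ) : ℝ) B := by
  set A : ℕ → Set (Sp N) := fun k => {x | ∀ r, 0 < r → r < 1 / ((k : ℝ) + 1) →
    μ (closedBall x r) ≤ ENNReal.ofReal (D * r ^ (N - 1))} with hA
  have hD' : ENNReal.ofReal D ≠ 0 := by simpa using hD
  have key : ∀ k : ℕ, μ (B ∩ A k)
      ≤ ENNReal.ofReal D * Measure.hausdorffMeasure ((N - 1 : ℕ) : ℝ) B := by
    intro k
    have hle : (ENNReal.ofReal D)⁻¹ • μ.restrict (A k)
        ≤ Measure.hausdorffMeasure ((N - 1 : ℕ) : ℝ) := by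
      apply Measure.le_hausdorffMeasure _ _ (ENNReal.ofReal (1 / (2 * ((k : ℝ) + 1))))
      · simp only [ENNReal.ofReal_pos]; positivity
      intro s hs
      rw [Measure.smul_apply, smul_eq_mul]
      rw [← ENNReal.div_eq_inv_mul]
      apply ENNReal.div_le_of_le_mul'
      set t := closure s with ht
      have htm : MeasurableSet t := isClosed_closure.measurableSet
      have hts : ediam t = ediam s := ediam_closure s
      have h1 : μ.restrict (A k) s ≤ μ (t ∩ A k) := by
        rw [← Measure.restrict_apply htm]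
        exact measure_mono subset_closure
      refine h1.trans ?_
      rcases (t ∩ A k).eq_empty_or_nonempty with he | ⟨x, hxt, hxA⟩
      · rw [he, measure_empty]; exact zero_le
      have hfin : ediam t ≠ ∞ := by
        rw [hts]; exact ne_top_of_le_ne_top ENNReal.ofReal_ne_top hs
      set ρ : ℝ := (ediam t).toReal with hρ
      have hρ0 : 0 ≤ ρ := ENNReal.toReal_nonneg
      have hρk : ρ < 1 / ((k : ℝ) + 1) := by
        have e1 : ρ ≤ 1 / (2 * ((k : ℝ) + 1)) := by
          rw [hρ, hts]
          have := ENNReal.toReal_mono ENNReal.ofReal_ne_top hs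
          rwa [ENNReal.toReal_ofReal (by positivity)] at this
        have e2 : 1 / (2 * ((k : ℝ) + 1)) < 1 / ((k : ℝ) + 1) := by
          apply one_div_lt_one_div_of_lt (by positivity)
          have : (0 : ℝ) < (k : ℝ) + 1 := by positivity
          linarith
        linarith
      have hsub : ∀ r, ρ < r → t ⊆ closedBall x r := by
        intro r hr y hy
        rw [mem_closedBall]
        have e1 : edist y x ≤ ediam t := edist_le_ediam_of_mem hy hxt
        have e2 : dist y x ≤ ρ := by
          rw [dist_edist]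
          exact ENNReal.toReal_mono hfin e1
        linarith
      have hbd : ∀ r, ρ < r → r < 1 / ((k : ℝ) + 1) →
          μ (t ∩ A k) ≤ ENNReal.ofReal (D * r ^ (N - 1)) := by
        intro r hr hr2
        exact (measure_mono (inter_subset_left.trans (hsub r hr))).trans
          (hxA r (lt_of_le_of_lt hρ0 hr) hr2)
      have hlim : Tendsto (fun r : ℝ => ENNReal.ofReal (D * r ^ (N - 1))) (𝓝[>] ρ)
          (𝓝 (ENNReal.ofReal (D * ρ ^ (N - 1)))) := by
        apply Tendsto.mono_left _ nhdsWithin_le_nhds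
        apply (ENNReal.continuous_ofReal.comp (by fun_prop : Continuous fun r : ℝ =>
          D * r ^ (N - 1))).tendsto
      have hle2 : μ (t ∩ A k) ≤ ENNReal.ofReal (D * ρ ^ (N - 1)) := by
        apply ge_of_tendsto hlim
        filter_upwards [Ioo_mem_nhdsGT hρk] with r hr
        exact hbd r hr.1 hr.2
      refine hle2.trans (le_of_eq ?_)
      rw [ENNReal.ofReal_mul hD.le, ENNReal.ofReal_pow hρ0, hρ, ENNReal.ofReal_toReal hfin,
        ENNReal.rpow_natCast, hts]
    have h2 := hle B
    rw [Measure.smul_apply, smul_eq_mul] at h2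
    have h3 : μ (B ∩ A k) ≤ μ.restrict (A k) B := Measure.le_restrict_apply _ _
    refine h3.trans ?_
    rw [← ENNReal.div_eq_inv_mul] at h2
    exact (ENNReal.div_le_iff_le_mul (Or.inl hD') (Or.inl ENNReal.ofReal_ne_top)).1 h2 |>.trans
      (le_of_eq (mul_comm _ _))
  have hmono : Monotone fun k => B ∩ A k := by
    intro a b hab x hx
    refine ⟨hx.1, fun r hr hr2 => hx.2 r hr (lt_of_lt_of_le hr2 ?_)⟩
    apply one_div_le_one_div_of_le (by positivity)
    have : (a : ℝ) ≤ b := by exact_mod_cast hab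
    linarith
  have hUn : B = ⋃ k, B ∩ A k := by
    apply Subset.antisymm
    · intro x hx
      obtain ⟨r1, hr1, hr⟩ := hS x (hBS hx)
      obtain ⟨k, hk⟩ := exists_nat_one_div_lt hr1
      exact mem_iUnion.2 ⟨k, hx, fun r h0 h1 => hr r h0 (h1.trans hk)⟩
    · exact iUnion_subset fun k => inter_subset_left
  rw [hUn, hmono.measure_iUnion, ← hUn]
  exact iSup_le key

/-- Almost every point is a point of the reduced boundary with normal `ν`. -/
lemma ae_isNormalAt {E : Set (Sp N)} {μ : Measure (Sp N)} {ν : Sp N → Sp N}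
    (h : IsGaussGreen E μ ν) : ∀ᵐ x ∂μ, IsNormalAt μ ν x (ν x) := by
  have := h.locallyFinite
  have hloc : LocallyIntegrable ν μ := by
    rw [locallyIntegrable_iff]
    intro k hk
    have hkfin : μ k < ∞ := hk.measure_lt_top
    have : IsFiniteMeasure (μ.restrict k) := ⟨by rwa [Measure.restrict_apply_univ]⟩
    refine Integrable.of_bound (C := 1) h.measurable.aestronglyMeasurable ?_
    exact ae_restrict_of_ae (h.norm_eq_one.mono fun y hy => hy.le)
  have h1 := (Besicovitch.vitaliFamily μ).ae_tendsto_average hloc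
  have h2 := (Besicovitch.vitaliFamily μ).ae_eventually_measure_pos
  filter_upwards [h1, h2, h.norm_eq_one] with x hx1 hx2 hx3
  have hT := Besicovitch.tendsto_filterAt μ x
  refine ⟨?_, hx3, hx1.comp hT⟩
  intro r hr
  have h3 : ∀ᶠ s in 𝓝[>] (0 : ℝ), 0 < μ (closedBall x s) := hT.eventually hx2
  obtain ⟨s, hs1, hs2⟩ := (h3.and (Ioo_mem_nhdsGT hr)).exists
  exact lt_of_lt_of_le hs1 (measure_mono (closedBall_subset_closedBall hs2.2.le))

lemma IsNormalAt.outerNormal_eq {μ : Measure (Sp N)} {ν : Sp N → Sp N} {x n : Sp N}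
    (h : IsNormalAt μ ν x n) : outerNormal μ ν x = n :=
  h.2.2.limUnder_eq

lemma le_polarNorm {K : Set (Sp N)} (hK : IsAnisotropy K) {v : Sp N} (hv : v ∈ K) (x : Sp N) :
    inner ℝ x v ≤ polarNorm K x := by
  apply le_csSup
  · obtain ⟨C, hC⟩ := hK.isBounded.exists_norm_le
    refine ⟨‖x‖ * C, ?_⟩
    rintro _ ⟨y, hy, rfl⟩
    exact (real_inner_le_norm x y).trans (mul_le_mul_of_nonneg_left (hC y hy) (norm_nonneg _))
  · exact ⟨v, hv, rfl⟩

lemma abs_inner_le_polarNorm {K : Set (Sp N)} (hK : IsAnisotropy K) {v : Sp N} (hv : v ∈ K)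
    (x : Sp N) : |inner ℝ v x| ≤ polarNorm K x := by
  rw [abs_le]
  have h1 := le_polarNorm hK hv x
  have h2 := le_polarNorm hK (hK.neg_mem v hv) x
  rw [inner_neg_right] at h2
  rw [real_inner_comm]
  constructor <;> linarith

end Pool.Agent.Helper20_Cheeger
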