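import Pool.Agent.Helper20_Cheeger.Lower

set_option autoImplicit false

open MeasureTheory Set Filter Topology Metric
open scoped ENNReal Pointwise

namespace Pool.Agent.Helper20_Cheeger

variable {N : ℕ}

/-- the cut-off used in the test field. -/
noncomputable def cutoff (N : ℕ) (R : ℝ) (hR : 0 < R) : ContDiffBump (0 : Sp N) where
  rIn := R
  rOut := 2 * R
  rIn_pos := hR
  rIn_lt_rOut := by linarith

/-- the scalar test function. -/
noncomputable def testFun (R : ℝ) (hR : 0 < R) (v : Sp N) (x : Sp N) : ℝ :=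
  (inner ℝ v x / (2 * R * ‖v‖)) * cutoff N R hR x

lemma testFun_contDiff {R : ℝ} (hR : 0 < R) (v : Sp N) : ContDiff ℝ 1 (testFun R hR v) := by
  have h1 : ContDiff ℝ 1 (fun x : Sp N => (inner ℝ v x / (2 * R * ‖v‖) : ℝ)) := by
    apply ContDiff.div_const
    exact contDiff_const.inner ℝ contDiff_id
  exact h1.mul (cutoff N R hR).contDiff

lemma testFun_compact {R : ℝ} (hR : 0 < R) (v : Sp N) : HasCompactSupport (testFun R hR v) :=
  (cutoff N R hR).hasCompactSupport.mul_left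

lemma testFun_abs_le {R : ℝ} (hR : 0 < R) (v x : Sp N) : |testFun R hR v x| ≤ 1 := by
  unfold testFun
  by_cases hx : ‖x‖ < 2 * R
  · rw [abs_mul]
    have h1 : |(cutoff N R hR) x| ≤ 1 := by
      rw [abs_of_nonneg (cutoff N R hR).nonneg]; exact (cutoff N R hR).le_one
    have h2 : |inner ℝ v x / (2 * R * ‖v‖)| ≤ 1 := by
      rcases eq_or_ne v 0 with rfl | hv
      · simp
      have hv' : 0 < ‖v‖ := norm_pos_iff.2 hv
      rw [abs_div, abs_of_pos (by positivity : 0 < 2 * R * ‖v‖), div_le_one (by positivity)]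
      have := abs_real_inner_le_norm v x
      nlinarith
    calc |inner ℝ v x / (2 * R * ‖v‖)| * |(cutoff N R hR) x| ≤ 1 * 1 := by
          apply mul_le_mul h2 h1 (abs_nonneg _) (by norm_num)
      _ = 1 := by norm_num
  · have : (cutoff N R hR) x = 0 := by
      apply (cutoff N R hR).zero_of_le_dist
      rw [dist_zero_right]
      exact not_lt.1 hx
    rw [this, mul_zero, abs_zero]
    norm_num

lemma testFun_fderiv {R : ℝ} (hR : 0 < R) {v x : Sp N} (hv : v ≠ 0) (hx : x ∈ ball (0 : Sp N) R) :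
    fderiv ℝ (testFun R hR v) x v = ‖v‖ / (2 * R) := by
  have h1 : testFun R hR v =ᶠ[𝓝 x] fun y => (innerSL ℝ v) y / (2 * R * ‖v‖) := by
    filter_upwards [isOpen_ball.mem_nhds hx] with y hy
    unfold testFun
    rw [(cutoff N R hR).one_of_mem_closedBall (ball_subset_closedBall hy), mul_one]
    rfl
  rw [h1.fderiv_eq]
  have h2 : HasFDerivAt (fun y => (innerSL ℝ v) y / (2 * R * ‖v‖))
      ((2 * R * ‖v‖)⁻¹ • (innerSL ℝ v)) x := by
    have := ((innerSL ℝ v).hasFDerivAt (x := x)).const_mul (2 * R * ‖v‖)⁻¹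
    refine this.congr_of_eventuallyEq (Eventually.of_forall fun y => ?_)
    simp [div_eq_inv_mul]
  rw [h2.fderiv]
  have hv' : 0 < ‖v‖ := norm_pos_iff.2 hv
  show (2 * R * ‖v‖)⁻¹ * inner ℝ v v = _
  rw [real_inner_self_eq_norm_sq]
  field_simp

/-- The total variation bound, tested against `v ∈ K`. -/
lemma variation_lower {K : Set (Sp N)} (hK : IsAnisotropy K) {v : Sp N} (hv : v ∈ K)
    {R : ℝ} (hR : 0 < R) {E : Set (Sp N)} (hE : MeasurableSet E) (hER : E ⊆ ball 0 R)
    {μ : Measure (Sp N)} {ν : Sp N → Sp N} (h : IsGaussGreen E μ ν) :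
    ENNReal.ofReal (‖v‖ / (2 * R)) * volume E ≤
      ∫⁻ x, ENNReal.ofReal (polarNorm K (ν x)) ∂μ := by
  rcases eq_or_ne v 0 with rfl | hv0
  · simp
  have hfin : volume E ≠ ∞ :=
    ne_top_of_le_ne_top measure_ball_lt_top.ne (measure_mono hER)
  have h1 := h.scalar (testFun_contDiff hR v) (testFun_compact hR v) v
  have h2 : ∫ x in E, fderiv ℝ (testFun R hR v) x v = ‖v‖ / (2 * R) * volume.real E := by
    rw [setIntegral_congr_fun hE (g := fun _ => ‖v‖ / (2 * R))
      (fun x hx => testFun_fderiv hR hv0 (hER hx))]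
    simp [mul_comm]
  rw [h2] at h1
  have h3 : ENNReal.ofReal (‖v‖ / (2 * R)) * volume E
      = ENNReal.ofReal (‖v‖ / (2 * R) * volume.real E) := by
    rw [ENNReal.ofReal_mul (by positivity), ofReal_measureReal hfin]
  rw [h3, h1]
  calc ENNReal.ofReal (∫ x, testFun R hR v x * inner ℝ v (ν x) ∂μ)
      ≤ ‖∫ x, testFun R hR v x * inner ℝ v (ν x) ∂μ‖ₑ := Real.ofReal_le_enorm _
    _ ≤ ∫⁻ x, ‖testFun R hR v x * inner ℝ v (ν x)‖ₑ ∂μ := enorm_integral_le_lintegral_enorm _
    _ ≤ ∫⁻ x, ENNReal.ofReal (polarNorm K (ν x)) ∂μ := by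
        apply lintegral_mono
        intro x
        show ‖testFun R hR v x * inner ℝ v (ν x)‖ₑ ≤ _
        rw [← ofReal_norm, Real.norm_eq_abs, abs_mul]
        apply ENNReal.ofReal_le_ofReal
        calc |testFun R hR v x| * |inner ℝ v (ν x)| ≤ 1 * polarNorm K (ν x) := by
              apply mul_le_mul (testFun_abs_le hR v x) (abs_inner_le_polarNorm hK hv _)
                (abs_nonneg _) (by norm_num)
          _ = _ := one_mul _

/-- Lower bound for the anisotropic perimeter. The constant depends only on the dimension. -/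
lemma perimeter_lower (hN : 1 ≤ N) : ∃ c : ℝ≥0∞, c ≠ 0 ∧ c ≠ ∞ ∧
    ∀ {K : Set (Sp N)}, IsAnisotropy K → ∀ {v : Sp N}, v ∈ K → ∀ {R : ℝ}, 0 < R →
    ∀ {E : Set (Sp N)}, MeasurableSet E → E ⊆ ball 0 R →
      ENNReal.ofReal (‖v‖ / (2 * R)) * volume E ≤ c * perimeter K E := by
  obtain ⟨D, hD, hdens⟩ := density_bound (N := N) hN
  set κ : ℝ≥0∞ := volume (ball (0 : Sp (N - 1)) (1 / 2)) with hκ
  have hκ0 : κ ≠ 0 := (measure_ball_pos _ _ (by norm_num)).ne'
  have hκt : κ ≠ ∞ := measure_ball_lt_top.ne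
  have hD0 : ENNReal.ofReal D ≠ 0 := by simpa using hD
  refine ⟨ENNReal.ofReal D / κ, ?_, ?_, ?_⟩
  · exact (ENNReal.div_pos hD0 hκt).ne'
  · exact ENNReal.div_ne_top ENNReal.ofReal_ne_top hκ0
  intro K hK v hv R hR E hE hER
  unfold perimeter
  have hc0 : ENNReal.ofReal D / κ ≠ 0 := (ENNReal.div_pos hD0 hκt).ne'
  have hct : ENNReal.ofReal D / κ ≠ ∞ := ENNReal.div_ne_top ENNReal.ofReal_ne_top hκ0
  rw [ENNReal.mul_iInf_of_ne hc0 hct]
  refine le_iInf fun μ => ?_
  rw [ENNReal.mul_iInf_of_ne hc0 hct]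
  refine le_iInf fun ν => ?_
  rw [ENNReal.mul_iInf_of_ne hc0 hct]
  refine le_iInf fun h => ?_
  refine (variation_lower hK hv hR hE hER h).trans ?_
  -- a measurable set of full measure of good points
  have hae := ae_isNormalAt h
  set Bad : Set (Sp N) := {x | ¬ IsNormalAt μ ν x (ν x)} with hBad
  have hBad0 : μ Bad = 0 := hae
  set G : Set (Sp N) := (toMeasurable μ Bad)ᶜ with hG
  have hGm : MeasurableSet G := (measurableSet_toMeasurable μ Bad).compl
  have hGprop : ∀ x ∈ G, IsNormalAt μ ν x (ν x) := by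
    intro x hx
    by_contra hcon
    exact hx (subset_toMeasurable μ Bad hcon)
  have hGc : μ Gᶜ = 0 := by
    rw [hG, compl_compl, measure_toMeasurable, hBad0]
  have hGsub : G ⊆ reducedBoundary μ ν := fun x hx => ⟨ν x, hGprop x hx⟩
  have hle : μ.restrict G ≤ ENNReal.ofReal D •
      (Measure.hausdorffMeasure ((N - 1 : ℕ) : ℝ) : Measure (Sp N)).restrict G := by
    rw [Measure.le_iff]
    intro B hB
    rw [Measure.restrict_apply hB, Measure.smul_apply, smul_eq_mul, Measure.restrict_apply hB]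
    apply measure_le_hausdorff hD (S := reducedBoundary μ ν) (fun x hx => hdens hE h x hx)
    exact inter_subset_right.trans hGsub
  calc ∫⁻ x, ENNReal.ofReal (polarNorm K (ν x)) ∂μ
      = ∫⁻ x in G, ENNReal.ofReal (polarNorm K (ν x)) ∂μ := by
        rw [← lintegral_add_compl _ hGm]
        rw [Measure.restrict_eq_zero.2 hGc, lintegral_zero_measure, add_zero]
    _ ≤ ∫⁻ x, ENNReal.ofReal (polarNorm K (ν x)) ∂(ENNReal.ofReal D •
      (Measure.hausdorffMeasure ((N - 1 : ℕ) : ℝ) : Measure (Sp N)).restrict G) :=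
        lintegral_mono' hle le_rfl
    _ = ENNReal.ofReal D * ∫⁻ x in G, ENNReal.ofReal (polarNorm K (ν x))
          ∂(Measure.hausdorffMeasure ((N - 1 : ℕ) : ℝ)) := by
        rw [lintegral_smul_measure, smul_eq_mul]
    _ = ENNReal.ofReal D * ∫⁻ x in G, ENNReal.ofReal (polarNorm K (outerNormal μ ν x))
          ∂(Measure.hausdorffMeasure ((N - 1 : ℕ) : ℝ)) := by
        congr 1
        apply setLIntegral_congr_fun hGm
        intro x hx
        show ENNReal.ofReal (polarNorm K (ν x)) = ENNReal.ofReal (polarNorm K (outerNormal μ ν x))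
        rw [(hGprop x hx).outerNormal_eq]
    _ ≤ ENNReal.ofReal D * ∫⁻ x in reducedBoundary μ ν,
          ENNReal.ofReal (polarNorm K (outerNormal μ ν x))
          ∂(Measure.hausdorffMeasure ((N - 1 : ℕ) : ℝ)) := by
        gcongr
    _ = ENNReal.ofReal D / κ * ∫⁻ x in reducedBoundary μ ν,
          ENNReal.ofReal (polarNorm K (outerNormal μ ν x)) ∂(surfaceMeasure N) := by
        unfold surfaceMeasure
        rw [Measure.restrict_smul, lintegral_smul_measure, smul_eq_mul, ← mul_assoc,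
          ENNReal.div_mul_cancel hκ0 hκt]

/-- Lower bound for the Cheeger constant. -/
lemma cheeger_lower (hN : 1 ≤ N) : ∃ c : ℝ≥0∞, c ≠ 0 ∧ c ≠ ∞ ∧
    ∀ {K : Set (Sp N)}, IsAnisotropy K → ∀ {v : Sp N}, v ∈ K → ∀ {R : ℝ}, 0 < R →
    ∀ {Ω : Set (Sp N)}, Ω ⊆ ball 0 R →
      ENNReal.ofReal (‖v‖ / (2 * R)) ≤ c * cheeger K Ω := by
  obtain ⟨c, hc0, hct, hc⟩ := perimeter_lower (N := N) hN
  refine ⟨c, hc0, hct, ?_⟩
  intro K hK v hv R hR Ω hΩ
  unfold cheeger
  rw [ENNReal.mul_iInf_of_ne hc0 hct]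
  refine le_iInf fun E => ?_
  rw [ENNReal.mul_iInf_of_ne hc0 hct]
  refine le_iInf fun hE => ?_
  rw [ENNReal.mul_iInf_of_ne hc0 hct]
  refine le_iInf fun hEΩ => ?_
  rw [ENNReal.mul_iInf_of_ne hc0 hct]
  refine le_iInf fun hpos => ?_
  have h1 := hc hK hv hR hE (hEΩ.trans hΩ)
  have hfin : volume E ≠ ∞ :=
    ne_top_of_le_ne_top measure_ball_lt_top.ne (measure_mono (hEΩ.trans hΩ))
  rw [← mul_div_assoc, ENNReal.le_div_iff_mul_le (Or.inl hpos.ne') (Or.inl hfin)]
  exact h1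

end Pool.Agent.Helper20_Cheeger
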