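import Pool.Agent.Helper20_Cheeger.Compare

set_option autoImplicit false

open MeasureTheory Set Filter Topology Metric TopologicalSpace
open scoped ENNReal Pointwise

namespace Pool.Agent.Helper20_Cheeger

variable {N : ℕ}

/-- The closure of an anisotropy, as a nonempty compact set. -/
noncomputable def closureCompact (K : Set (Sp N)) (hK : IsAnisotropy K) :
    NonemptyCompacts (Sp N) :=
  ⟨⟨closure K, hK.isBounded.isCompact_closure⟩, hK.nonempty.closure⟩

@[simp] lemma coe_closureCompact (K : Set (Sp N)) (hK : IsAnisotropy K) :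
    (closureCompact K hK : Set (Sp N)) = closure K := rfl

/-- Blaschke selection for anisotropies between two fixed balls. -/
lemma blaschke {r : ℝ} (hr : 0 < r) (K : ℕ → Set (Sp N)) (hK : ∀ n, IsAnisotropy (K n))
    (h1 : ∀ n, K n ⊆ closedBall 0 1) (h2 : ∀ n, ball 0 r ⊆ K n) :
    ∃ (K' : Set (Sp N)) (φ : ℕ → ℕ), IsAnisotropy K' ∧ StrictMono φ ∧
      ∀ c : ℝ, 1 < c → ∀ᶠ n in atTop, K' ⊆ c • K (φ n) ∧ K (φ n) ⊆ c • K' := by
  have hcomp : IsCompact {L : NonemptyCompacts (Sp N) | (L : Set (Sp N)) ⊆ closedBall 0 1} :=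
    NonemptyCompacts.isCompact_subsets_of_isCompact (isCompact_closedBall _ _)
  have hmem : ∀ n, closureCompact (K n) (hK n) ∈
      {L : NonemptyCompacts (Sp N) | (L : Set (Sp N)) ⊆ closedBall 0 1} := fun n =>
    closure_minimal (h1 n) isClosed_closedBall
  obtain ⟨L, hL, φ, hφ, hlim⟩ := hcomp.tendsto_subseq hmem
  have hdist : Tendsto (fun n => dist (closureCompact (K (φ n)) (hK (φ n))) L) atTop (𝓝 0) :=
    tendsto_iff_dist_tendsto_zero.1 hlim
  have hLc : IsClosed (L : Set (Sp N)) := L.isCompact.isClosed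
  have hLne : (L : Set (Sp N)).Nonempty := L.nonempty
  -- approximation in both directions
  have happ : ∀ δ > 0, ∀ᶠ n in atTop,
      (∀ x ∈ (L : Set (Sp N)), ∃ y ∈ closure (K (φ n)), dist x y < δ) ∧
      (∀ x ∈ closure (K (φ n)), ∃ y ∈ (L : Set (Sp N)), dist x y < δ) := by
    intro δ hδ
    filter_upwards [hdist.eventually (gt_mem_nhds hδ)] with n hn
    rw [NonemptyCompacts.dist_eq, coe_closureCompact] at hn
    have hfin : hausdorffEDist (closure (K (φ n))) (L : Set (Sp N)) ≠ ∞ := by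
      apply hausdorffEDist_ne_top_of_nonempty_of_bounded
      · exact (hK _).nonempty.closure
      · exact hLne
      · exact (hK _).isBounded.closure
      · exact L.isCompact.isBounded
    constructor
    · intro x hx
      obtain ⟨y, hy, hxy⟩ := exists_dist_lt_of_hausdorffDist_lt' hx hn hfin
      exact ⟨y, hy, by rwa [dist_comm]⟩
    · intro x hx
      exact exists_dist_lt_of_hausdorffDist_lt hx hn hfin
  -- membership criterion
  have hcrit : ∀ x, (∀ δ > 0, ∃ᶠ n in atTop, ∃ y ∈ closure (K (φ n)), dist x y < δ) →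
      x ∈ (L : Set (Sp N)) := by
    intro x hx
    rw [← hLc.closure_eq, Metric.mem_closure_iff]
    intro δ hδ
    have h3 := (hx (δ / 2) (by positivity)).and_eventually (happ (δ / 2) (by positivity))
    obtain ⟨n, ⟨y, hy, hxy⟩, -, h4⟩ := h3.exists
    obtain ⟨z, hz, hyz⟩ := h4 y hy
    exact ⟨z, hz, by linarith [dist_triangle x y z]⟩
  have hLball : ball (0 : Sp N) r ⊆ L := by
    intro x hx
    apply hcrit
    intro δ hδ
    apply Eventually.frequently
    exact Eventually.of_forall fun n => ⟨x, subset_closure (h2 _ hx), by simpa using hδ⟩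
  have hLconv : Convex ℝ (L : Set (Sp N)) := by
    intro x hx y hy a b ha hb hab
    apply hcrit
    intro δ hδ
    apply Eventually.frequently
    filter_upwards [happ δ hδ] with n hn
    obtain ⟨x', hx', hxx⟩ := hn.1 x hx
    obtain ⟨y', hy', hyy⟩ := hn.1 y hy
    refine ⟨a • x' + b • y', (hK (φ n)).convex.closure hx' hy' ha hb hab, ?_⟩
    have e1 : a • x + b • y - (a • x' + b • y') = a • (x - x') + b • (y - y') := by
      rw [smul_sub, smul_sub]; abel
    rw [dist_eq_norm, e1]
    rw [dist_eq_norm] at hxx hyy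
    calc ‖a • (x - x') + b • (y - y')‖ ≤ ‖a • (x - x')‖ + ‖b • (y - y')‖ := norm_add_le _ _
      _ = a * ‖x - x'‖ + b * ‖y - y'‖ := by
          rw [norm_smul, norm_smul, Real.norm_of_nonneg ha, Real.norm_of_nonneg hb]
      _ < δ := by
          rcases ha.eq_or_lt with rfl | ha'
          · rw [zero_add] at hab
            subst hab
            linarith
          · have e2 : a * ‖x - x'‖ < a * δ := mul_lt_mul_of_pos_left hxx ha'
            have e3 : b * ‖y - y'‖ ≤ b * δ := mul_le_mul_of_nonneg_left hyy.le hb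
            have e4 : a * δ + b * δ = δ := by rw [← add_mul, hab, one_mul]
            linarith
  have hLsymm : ∀ x ∈ (L : Set (Sp N)), -x ∈ (L : Set (Sp N)) := by
    intro x hx
    apply hcrit
    intro δ hδ
    apply Eventually.frequently
    filter_upwards [happ δ hδ] with n hn
    obtain ⟨x', hx', hxx⟩ := hn.1 x hx
    refine ⟨-x', ?_, by rwa [dist_neg_neg]⟩
    have h5 : (-x' : Sp N) ∈ closure ((fun z : Sp N => -z) '' (K (φ n))) :=
      image_closure_subset_closure_image continuous_neg ⟨x', hx', rfl⟩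
    apply closure_mono _ h5
    rintro _ ⟨z, hz, rfl⟩
    exact (hK (φ n)).neg_mem _ hz
  have hKanis : IsAnisotropy (interior (L : Set (Sp N))) := by
    refine ⟨⟨0, ?_⟩, isOpen_interior, L.isCompact.isBounded.subset interior_subset,
      hLconv.interior, ?_⟩
    · exact interior_maximal hLball isOpen_ball (mem_ball_self hr)
    · intro x hx
      have h3 : -x ∈ -interior (L : Set (Sp N)) := by simpa using hx
      have h4 : -interior (L : Set (Sp N)) ⊆ interior (L : Set (Sp N)) := by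
        apply interior_maximal
        · intro z hz
          have := hLsymm _ (interior_subset hz)
          simpa using this
        · exact isOpen_interior.neg
      exact h4 h3
  refine ⟨interior (L : Set (Sp N)), φ, hKanis, hφ, ?_⟩
  intro c hc
  -- choose `δ` with `c = 1 + δ / (r / 2)`
  set s : ℝ := c - 1 with hs
  have hs0 : 0 < s := by rw [hs]; linarith
  have hc0 : 0 < c := by linarith
  have hδ0 : 0 < s * r := by positivity
  filter_upwards [happ (s * r) hδ0] with n hn
  -- the key scaling argument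
  have hscal : ∀ (A B : Set (Sp N)), Convex ℝ B → ball 0 r ⊆ interior B →
      (∀ x ∈ A, ∃ y ∈ closure B, dist x y < s * r) → A ⊆ c • interior B := by
    intro A B hB hBr hAB x hx
    obtain ⟨y, hy, hxy⟩ := hAB x hx
    rw [mem_smul_set_iff_inv_smul_mem₀ hc0.ne']
    have hb : s⁻¹ • (x - y) ∈ interior B := by
      apply hBr
      rw [mem_ball_zero_iff, norm_smul, norm_inv, Real.norm_of_nonneg hs0.le]
      rw [dist_eq_norm] at hxy
      rw [← div_eq_inv_mul, div_lt_iff₀ hs0]
      linarith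
    have hcomb := hB.combo_interior_closure_mem_interior hb hy
      (show 0 < s / c by positivity) (show 0 ≤ 1 / c by positivity)
      (by rw [← add_div, hs]; field_simp; ring)
    have e1 : (s / c) • s⁻¹ • (x - y) + (1 / c) • y = c⁻¹ • x := by
      rw [smul_smul]
      have : s / c * s⁻¹ = c⁻¹ := by field_simp
      rw [this, one_div, ← smul_add]
      congr 1
      abel
    rwa [e1] at hcomb
  constructor
  · -- `K' ⊆ c • K`
    have h3 := hscal (interior (L : Set (Sp N))) (K (φ n)) (hK _).convex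
      (by rw [(hK (φ n)).isOpen.interior_eq]; exact h2 _)
      (fun x hx => hn.1 x (interior_subset hx))
    rwa [(hK (φ n)).isOpen.interior_eq] at h3
  · -- `K ⊆ c • K'`
    apply hscal (K (φ n)) (L : Set (Sp N)) hLconv (interior_maximal hLball isOpen_ball)
    intro x hx
    obtain ⟨y, hy, hxy⟩ := hn.2 x (subset_closure hx)
    exact ⟨y, subset_closure hy, hxy⟩

/-- Normalisation: every anisotropy has a multiple contained in the closed unit ball and containing
a vector of norm at least one half. -/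
lemma exists_normalised (hN : 1 ≤ N) {K : Set (Sp N)} (hK : IsAnisotropy K) :
    ∃ c : ℝ, 0 < c ∧ c • K ⊆ closedBall 0 1 ∧ ∃ v ∈ c • K, 1 / 2 ≤ ‖v‖ := by
  obtain ⟨M, hM⟩ := hK.isBounded.exists_norm_le
  have hbdd : BddAbove (norm '' K) := ⟨M, by rintro _ ⟨y, hy, rfl⟩; exact hM y hy⟩
  have hne : (norm '' K).Nonempty := hK.nonempty.image _
  set ρ : ℝ := sSup (norm '' K) with hρ
  have hρ0 : 0 < ρ := by
    obtain ⟨ε, hε, hball⟩ := Metric.isOpen_iff.1 hK.isOpen 0 hK.zero_mem
    obtain ⟨i⟩ : Nonempty (Fin N) := ⟨⟨0, hN⟩⟩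
    set e : Sp N := (ε / 2) • EuclideanSpace.single i (1 : ℝ) with he
    have hen : ‖e‖ = ε / 2 := by
      rw [he, norm_smul, Real.norm_of_nonneg (by positivity)]
      simp
    have heK : e ∈ K := hball (by rw [mem_ball_zero_iff, hen]; linarith)
    calc 0 < ε / 2 := by positivity
      _ = ‖e‖ := hen.symm
      _ ≤ ρ := le_csSup hbdd ⟨e, heK, rfl⟩
  refine ⟨ρ⁻¹, inv_pos.2 hρ0, ?_, ?_⟩
  · rintro _ ⟨y, hy, rfl⟩
    rw [mem_closedBall_zero_iff]
    show ‖ρ⁻¹ • y‖ ≤ 1
    rw [norm_smul, norm_inv, Real.norm_of_nonneg hρ0.le, ← div_eq_inv_mul, div_le_one hρ0]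
    exact le_csSup hbdd ⟨y, hy, rfl⟩
  · obtain ⟨_, ⟨y, hy, rfl⟩, hy2⟩ := exists_lt_of_lt_csSup hne (show ρ / 2 < ρ by linarith)
    refine ⟨ρ⁻¹ • y, ⟨y, hy, rfl⟩, ?_⟩
    rw [norm_smul, norm_inv, Real.norm_of_nonneg hρ0.le, ← div_eq_inv_mul, le_div_iff₀ hρ0]
    linarith

/-- The unit ball is an anisotropy. -/
lemma isAnisotropy_ball : IsAnisotropy (ball (0 : Sp N) 1) where
  nonempty := ⟨0, by simp⟩
  isOpen := isOpen_ball
  isBounded := isBounded_ball
  convex := convex_ball _ _
  neg_mem := by intro x hx; simpa using hx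

/-- Existence of an optimal anisotropy. -/
theorem exists_minimizer (hN : 1 ≤ N) {Ω : Set (Sp N)} (hΩ : Bornology.IsBounded Ω) :
    ∃ K' : Set (Sp N), IsAnisotropy K' ∧
      ∀ K : Set (Sp N), IsAnisotropy K → functionalJ Ω K' ≤ functionalJ Ω K := by
  set m : ℝ≥0∞ := ⨅ (K : Set (Sp N)) (_ : IsAnisotropy K), functionalJ Ω K with hm
  have hmle : ∀ K : Set (Sp N), IsAnisotropy K → m ≤ functionalJ Ω K := fun K hK =>
    iInf₂_le K hK
  by_cases hmt : m = ∞
  · refine ⟨ball 0 1, isAnisotropy_ball, fun K hK => ?_⟩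
    have := hmle K hK
    rw [hmt, top_le_iff] at this
    rw [this]
    exact le_top
  -- the radius of a ball containing `Ω`
  obtain ⟨R, hR0, hR⟩ : ∃ R > 0, Ω ⊆ ball (0 : Sp N) R := by
    obtain ⟨R, hR⟩ := hΩ.subset_ball (0 : Sp N)
    exact ⟨max R 1, by positivity, hR.trans (ball_subset_ball (le_max_left _ _))⟩
  obtain ⟨c, hc0, hct, hc⟩ := cheeger_lower (N := N) hN
  -- minimising sequence
  have hseq : ∀ n : ℕ, ∃ K : Set (Sp N), IsAnisotropy K ∧ K ⊆ closedBall 0 1 ∧
      (∃ v ∈ K, 1 / 2 ≤ ‖v‖) ∧ functionalJ Ω K < m + 1 / ((n : ℝ≥0∞) + 1) := by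
    intro n
    have h1 : m < m + 1 / ((n : ℝ≥0∞) + 1) := by
      apply ENNReal.lt_add_right hmt
      simp
    rw [hm] at h1
    obtain ⟨K, hK⟩ := iInf_lt_iff.1 h1
    obtain ⟨hKa, hK2⟩ := iInf_lt_iff.1 hK
    obtain ⟨a, ha, ha1, v, hv, hv2⟩ := exists_normalised hN hKa
    exact ⟨a • K, hKa.smul ha, ha1, ⟨v, hv, hv2⟩,
      lt_of_le_of_lt (functionalJ_smul_le hN hKa ha Ω) hK2⟩
  choose K hK hK1 hKv hKJ using hseq
  -- uniform bound on the polar volume
  set h0 : ℝ≥0∞ := ENNReal.ofReal (1 / (4 * R)) / c with hh0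
  have hh00 : h0 ≠ 0 := (ENNReal.div_pos (by simp only [ne_eq, ENNReal.ofReal_eq_zero, not_le]; positivity) hct).ne'
  have hh0t : h0 ≠ ∞ := ENNReal.div_ne_top ENNReal.ofReal_ne_top hc0
  have hlow : ∀ n, h0 ≤ cheeger (K n) Ω := by
    intro n
    obtain ⟨v, hv, hv2⟩ := hKv n
    have h2 := hc (hK n) hv hR0 hR
    rw [hh0]
    apply ENNReal.div_le_of_le_mul'
    refine le_trans (ENNReal.ofReal_le_ofReal ?_) h2
    rw [div_le_div_iff₀ (by positivity) (by positivity)]
    nlinarith
  have hN' : (0 : ℝ) < N := by exact_mod_cast hN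
  have hV : ∀ n, volume (polarSet (K n)) ≤ ((m + 1) / h0) ^ (N : ℝ) := by
    intro n
    have h2 : h0 * volume (polarSet (K n)) ^ (1 / (N : ℝ)) ≤ m + 1 := by
      calc h0 * volume (polarSet (K n)) ^ (1 / (N : ℝ))
          ≤ cheeger (K n) Ω * volume (polarSet (K n)) ^ (1 / (N : ℝ)) :=
            mul_le_mul_left (hlow n) _
        _ ≤ m + 1 / ((n : ℝ≥0∞) + 1) := (hKJ n).le
        _ ≤ m + 1 := by
            gcongr
            rw [ENNReal.div_le_iff_le_mul (by simp) (by simp)]
            simp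
    have h3 : volume (polarSet (K n)) ^ (1 / (N : ℝ)) ≤ (m + 1) / h0 := by
      rw [ENNReal.le_div_iff_mul_le (Or.inl hh00) (Or.inl hh0t), mul_comm]
      exact h2
    calc volume (polarSet (K n)) = (volume (polarSet (K n)) ^ (1 / (N : ℝ))) ^ (N : ℝ) := by
          rw [← ENNReal.rpow_mul, one_div_mul_cancel hN'.ne', ENNReal.rpow_one]
      _ ≤ ((m + 1) / h0) ^ (N : ℝ) := ENNReal.rpow_le_rpow h3 hN'.le
  have hVt : ((m + 1) / h0) ^ (N : ℝ) ≠ ∞ := by
    apply ENNReal.rpow_ne_top_of_nonneg hN'.le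
    apply ENNReal.div_ne_top _ hh00
    simp [hmt]
  obtain ⟨r, hr, hrad⟩ := inradius_bound (N := N) _ hVt
  obtain ⟨K', φ, hK', hφ, hconv⟩ := blaschke hr K hK hK1
    (fun n => hrad (K n) (hK n) (hK1 n) (hV n))
  refine ⟨K', hK', ?_⟩
  have hlim : Tendsto (fun n : ℕ => m + 1 / ((φ n : ℝ≥0∞) + 1)) atTop (𝓝 m) := by
    have h2 : Tendsto (fun n : ℕ => 1 / ((n : ℝ≥0∞) + 1)) atTop (𝓝 0) := by
      have h3 : Tendsto (fun n : ℕ => ((n : ℝ≥0∞))⁻¹) atTop (𝓝 0) :=
        ENNReal.tendsto_inv_nat_nhds_zero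
      have h4 := (tendsto_add_atTop_iff_nat 1).2 h3
      refine h4.congr fun n => ?_
      push_cast
      rw [one_div]
    have h5 := (h2.comp hφ.tendsto_atTop)
    have h6 := (tendsto_const_nhds (x := m)).add h5
    rw [add_zero] at h6
    exact h6
  have hle1 : ∀ a : ℝ, 1 < a → functionalJ Ω K' ≤ ENNReal.ofReal (a * a) * m := by
    intro a ha
    have ha0 : 0 < a := by linarith
    have hlim2 : Tendsto (fun n : ℕ => ENNReal.ofReal (a * a) * (m + 1 / ((φ n : ℝ≥0∞) + 1)))
        atTop (𝓝 (ENNReal.ofReal (a * a) * m)) :=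
      ENNReal.Tendsto.const_mul hlim (Or.inr ENNReal.ofReal_ne_top)
    apply ge_of_tendsto hlim2
    filter_upwards [hconv a ha] with n hn
    refine (functionalJ_le hN hK' (hK (φ n)) ha0 ha0 hn.1 hn.2 Ω).trans ?_
    gcongr
    exact (hKJ (φ n)).le
  have hfin : functionalJ Ω K' ≤ m := by
    have hlim3 : Tendsto (fun a : ℝ => ENNReal.ofReal (a * a) * m) (𝓝[>] 1)
        (𝓝 (ENNReal.ofReal (1 * 1) * m)) := by
      apply ENNReal.Tendsto.mul_const _ (Or.inr hmt)
      apply Tendsto.mono_left _ nhdsWithin_le_nhds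
      exact (ENNReal.continuous_ofReal.comp (by fun_prop : Continuous fun a : ℝ => a * a)).tendsto 1
    rw [one_mul, ENNReal.ofReal_one, one_mul] at hlim3
    apply ge_of_tendsto hlim3
    filter_upwards [self_mem_nhdsWithin] with a ha
    exact hle1 a ha
  exact fun K hK => hfin.trans (hmle K hK)

end Pool.Agent.Helper20_Cheeger
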